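import Mathlib

set_option autoImplicit false

namespace Pool.Agent.H.MP_3da572_an

lemma polyA (r a b D P : ℝ) (ha : 0 ≤ a) (hb : 0 ≤ b) (hD : 0 ≤ D) (hP : 0 ≤ P) (h1 : D ≤ a + b)
    (h2 : P ^ 2 + a ^ 2 * b ^ 2 * D ^ 2 = (a ^ 2 + b ^ 2) * (a ^ 4 + b ^ 4)) :
    (6 * r + D) * P ≤ 87 / 20 * (r ^ 4 + a ^ 4 + b ^ 4) := by
  obtain ⟨s, hs⟩ : ∃ s, s = a ^ 2 + b ^ 2 := ⟨_, rfl⟩
  obtain ⟨m, hm⟩ : ∃ m, m = a * b := ⟨_, rfl⟩
  have m0 : 0 ≤ m := by rw [hm]; positivity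
  have m1 : 2 * m ≤ s := by rw [hm, hs]; nlinarith [sq_nonneg (a - b)]
  have e1 : a ^ 4 + b ^ 4 = s ^ 2 - 2 * m ^ 2 := by rw [hm, hs]; ring
  have e2 : D ^ 2 ≤ s + 2 * m := by rw [hm, hs]; nlinarith
  have e3 : P ^ 2 + m ^ 2 * D ^ 2 = s * (s ^ 2 - 2 * m ^ 2) := by rw [← e1, hm, hs, ← h2]; ring
  rw [add_assoc, e1]
  clear h1 h2 e1 hs hm
  rcases (m0.trans (by linarith : m ≤ s)).eq_or_lt with s0 | s0
  · subst s0
    have : m = 0 := by linarith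
    subst this
    have : P = 0 := by simpa using e3
    subst this
    simp
    positivity
  have q1 : ∀ u : ℝ, 0 ≤ 29 / 10 * P ^ 2 - u * P - 6 * (s * r) * P + 29 / 80 * u ^ 2 +
      87 / 20 * s * r ^ 4 + 29 / 20 * (17 / 25) * s ^ 3 := fun u => by
    nlinarith [sq_nonneg (u - 40 / 29 * P), sq_nonneg (P - 870 / 641 * (s * r)),
      mul_nonneg s0.le (sq_nonneg (r ^ 2 - 47 / 100 * s)), pow_pos s0 3,
      mul_nonneg (pow_pos s0 2).le (sq_nonneg r)]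
  have q2 : ∀ u : ℝ, 0 ≤ 29 / 10 * P ^ 2 - u * P - 6 * (s * r) * P + 29 / 40 * u ^ 2 +
      87 / 20 * s * r ^ 4 + 29 / 40 * s ^ 3 := fun u => by
    nlinarith [sq_nonneg (u - 20 / 29 * P), sq_nonneg (P - 870 / 741 * (s * r)),
      mul_nonneg s0.le (sq_nonneg (r ^ 2 - 81 / 200 * s)), pow_pos s0 3,
      mul_nonneg (pow_pos s0 2).le (sq_nonneg r)]
  refine le_of_mul_le_mul_left ?_ s0
  have a1 := q1 (s * D)
  have a2 := q2 (s * D)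
  rcases le_total (8 * m ^ 2) (s ^ 2) with h | h
  · have b1 := mul_nonneg (sub_nonneg.2 h) (sub_nonneg.2 e2)
    have b2 : 0 ≤ 7 / 100 * s ^ 3 - s ^ 2 * m / 2 + 4 * m ^ 3 := by
      nlinarith [mul_nonneg (by positivity : 0 ≤ 4 * m + 8 / 5 * s) (sq_nonneg (m - s / 5)),
        mul_nonneg (pow_pos s0 2).le (by linarith : 0 ≤ s - 2 * m), pow_pos s0 3,
        mul_nonneg s0.le (sq_nonneg (m - s / 5))]
    nlinarith
  · have h' : 4 * m ^ 2 ≤ s ^ 2 := by nlinarith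
    have c1 := mul_nonneg (sub_nonneg.2 h') a1
    have c2 := mul_nonneg (sub_nonneg.2 h) a2
    have c3 := mul_nonneg (sub_nonneg.2 h') (pow_pos s0 3).le
    refine le_of_mul_le_mul_left ?_ (pow_pos s0 2)
    have e4 : s ^ 2 * (P ^ 2 + m ^ 2 * D ^ 2) = s ^ 2 * (s * (s ^ 2 - 2 * m ^ 2)) := by rw [e3]
    nlinarith

end Pool.Agent.H.MP_3da572_an
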