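import Mathlib

set_option autoImplicit false

namespace Pool.Agent.H.MP_3da572_an

/-- constraints coming from the numerical radius -/
def HH (α β γ δ : ℝ) : Prop := ∀ p q : ℝ, 0 ≤ p → 0 ≤ q →
  (α * q ^ 4 - δ * p ^ 4) ^ 2 + (β * (p * q ^ 3) + γ * (p ^ 3 * q)) ^ 2 ≤
    (1024 * (p ^ 4 + q ^ 4)) ^ 2 ∧
  |α * q ^ 4 - δ * p ^ 4| + |β * (p * q ^ 3) - γ * (p ^ 3 * q)| ≤ 1024 * (p ^ 4 + q ^ 4)

/-- norm bound -/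
def GG (α β γ δ : ℝ) : Prop := ∀ x y : ℝ, 0 ≤ x → 0 ≤ y →
  (α * x + β * y) ^ 4 + (γ * x + δ * y) ^ 4 ≤ 3069 * 2 ^ 32 * (x ^ 4 + y ^ 4)

/-- infeasibility test -/
def inf (p q a0 a1 b0 b1 c0 c1 d0 d1 : ℕ) : Bool :=
  let U := (a0 * q ^ 4 - d1 * p ^ 4) + (d0 * p ^ 4 - a1 * q ^ 4)
  Nat.blt (1024 * (p ^ 4 + q ^ 4))
    (U + ((b0 * (p * q ^ 3) - c1 * (p ^ 3 * q)) + (c0 * (p ^ 3 * q) - b1 * (p * q ^ 3)))) ||
  Nat.blt ((1024 * (p ^ 4 + q ^ 4)) ^ 2) (U ^ 2 + (b0 * (p * q ^ 3) + c0 * (p ^ 3 * q)) ^ 2)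

/-- Schur test -/
def good (p q a b c d : ℕ) : Bool :=
  Nat.ble (a * (a * q + b * p) ^ 3 + c * (c * q + d * p) ^ 3) (3069 * 2 ^ 32 * q ^ 3) &&
  Nat.ble (b * (a * q + b * p) ^ 3 + d * (c * q + d * p) ^ 3) (3069 * 2 ^ 32 * p ^ 3)

/-- leaf test -/
def chk (a0 a1 b0 b1 c0 c1 d0 d1 : ℕ) : Bool :=
  good 2 3 a1 b1 c1 d1 || good 4 5 a1 b1 c1 d1 || good 1 1 a1 b1 c1 d1 || good 3 2 a1 b1 c1 d1 ||
  good 5 4 a1 b1 c1 d1 || good 2 1 a1 b1 c1 d1 || good 1 2 a1 b1 c1 d1 ||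
  inf 2 1 a0 a1 b0 b1 c0 c1 d0 d1 || inf 5 4 a0 a1 b0 b1 c0 c1 d0 d1 ||
  inf 1 2 a0 a1 b0 b1 c0 c1 d0 d1 || inf 4 5 a0 a1 b0 b1 c0 c1 d0 d1 ||
  inf 3 2 a0 a1 b0 b1 c0 c1 d0 d1 || inf 1 1 a0 a1 b0 b1 c0 c1 d0 d1 ||
  inf 2 3 a0 a1 b0 b1 c0 c1 d0 d1

/-- one bisection step along coordinate `i` -/
def st (f : ℕ → ℕ → ℕ → ℕ → ℕ → ℕ → ℕ → ℕ → ℕ → Bool) (i a0 a1 b0 b1 c0 c1 d0 d1 : ℕ) : Bool :=
  chk a0 a1 b0 b1 c0 c1 d0 d1 ||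
  (bif Nat.beq i 0 then
    f 1 a0 a1 b0 ((b0 + b1) / 2) c0 c1 d0 d1 && f 1 a0 a1 ((b0 + b1) / 2) b1 c0 c1 d0 d1
  else bif Nat.beq i 1 then
    f 2 a0 a1 b0 b1 c0 ((c0 + c1) / 2) d0 d1 && f 2 a0 a1 b0 b1 ((c0 + c1) / 2) c1 d0 d1
  else bif Nat.beq i 2 then
    f 3 a0 ((a0 + a1) / 2) b0 b1 c0 c1 d0 d1 && f 3 ((a0 + a1) / 2) a1 b0 b1 c0 c1 d0 d1
  else f 0 a0 a1 b0 b1 c0 c1 d0 ((d0 + d1) / 2) && f 0 a0 a1 b0 b1 c0 c1 ((d0 + d1) / 2) d1)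

/-- bisection with fuel -/
def bb (n : ℕ) : ℕ → ℕ → ℕ → ℕ → ℕ → ℕ → ℕ → ℕ → ℕ → Bool :=
  Nat.rec (fun _ _ _ _ _ _ _ _ _ => false) (fun _ f => st f) n

lemma tsub (m n m' n' : ℕ) (A B : ℝ) (h1 : (m : ℝ) ≤ A) (h2 : B ≤ n) (h3 : (m' : ℝ) ≤ B)
    (h4 : A ≤ n') : ((m - n + (m' - n') : ℕ) : ℝ) ≤ |A - B| := by
  rw [Nat.cast_add]
  have k : ∀ u v : ℕ, ((u - v : ℕ) : ℝ) = max ((u : ℝ) - v) 0 := fun u v => by
    rcases le_total u v with h | h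
    · rw [Nat.sub_eq_zero_of_le h, max_eq_right (by simpa using h)]; simp
    · rw [Nat.cast_sub h, max_eq_left (by simpa using h)]
  rw [k, k]
  rcases abs_cases (A - B) with h | h <;> rcases max_cases ((m : ℝ) - n) 0 with g | g <;>
    rcases max_cases ((m' : ℝ) - n') 0 with g' | g' <;> linarith [h.1, h.2, g.1, g.2, g'.1, g'.2]

lemma inf_ok {p q a0 a1 b0 b1 c0 c1 d0 d1 : ℕ} (h : inf p q a0 a1 b0 b1 c0 c1 d0 d1 = true)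
    {α β γ δ : ℝ} (ha : α ∈ Set.Icc (a0 : ℝ) a1) (hb : β ∈ Set.Icc (b0 : ℝ) b1)
    (hc : γ ∈ Set.Icc (c0 : ℝ) c1) (hd : δ ∈ Set.Icc (d0 : ℝ) d1) : ¬ HH α β γ δ := by
  intro H
  obtain ⟨H1, H2⟩ := H p q (Nat.cast_nonneg _) (Nat.cast_nonneg _)
  obtain ⟨a2, a3⟩ := ha
  obtain ⟨b2, b3⟩ := hb
  obtain ⟨c2, c3⟩ := hc
  obtain ⟨d2, d3⟩ := hd
  have u := tsub (a0 * q ^ 4) (d1 * p ^ 4) (d0 * p ^ 4) (a1 * q ^ 4) (α * q ^ 4) (δ * p ^ 4)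
    (by push_cast; gcongr) (by push_cast; gcongr) (by push_cast; gcongr) (by push_cast; gcongr)
  have w := tsub (b0 * (p * q ^ 3)) (c1 * (p ^ 3 * q)) (c0 * (p ^ 3 * q)) (b1 * (p * q ^ 3))
    (β * (p * q ^ 3)) (γ * (p ^ 3 * q))
    (by push_cast; gcongr) (by push_cast; gcongr) (by push_cast; gcongr) (by push_cast; gcongr)
  simp only [inf, Bool.or_eq_true, Nat.blt_eq] at h
  generalize a0 * q ^ 4 - d1 * p ^ 4 + (d0 * p ^ 4 - a1 * q ^ 4) = U at *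
  generalize b0 * (p * q ^ 3) - c1 * (p ^ 3 * q) + (c0 * (p ^ 3 * q) - b1 * (p * q ^ 3)) = W at *
  rcases h with h | h
  · have : (1024 * (p ^ 4 + q ^ 4) : ℝ) < U + W := by exact_mod_cast h
    linarith
  · have h1 : ((1024 * (p ^ 4 + q ^ 4)) ^ 2 : ℝ) <
        U ^ 2 + (b0 * (p * q ^ 3) + c0 * (p ^ 3 * q)) ^ 2 := by exact_mod_cast h
    have h2 : (U : ℝ) ^ 2 ≤ |α * q ^ 4 - δ * p ^ 4| ^ 2 := by gcongr
    have h3 : (b0 * (p * q ^ 3) + c0 * (p ^ 3 * q) : ℝ) ^ 2 ≤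
        (β * (p * q ^ 3) + γ * (p ^ 3 * q)) ^ 2 := by gcongr
    rw [sq_abs] at h2
    linarith

lemma jen (A B u w : ℝ) (hA : 0 ≤ A) (hB : 0 ≤ B) (hu : 0 ≤ u) (hw : 0 ≤ w) :
    (A * u + B * w) ^ 4 ≤ (A + B) ^ 3 * (A * u ^ 4 + B * w ^ 4) := by
  have : 0 ≤ A * B * (u - w) ^ 2 * ((3 * A ^ 2 + 3 * A * B + B ^ 2) * u ^ 2 +
      (2 * A ^ 2 + 6 * A * B + 2 * B ^ 2) * u * w + (A ^ 2 + 3 * A * B + 3 * B ^ 2) * w ^ 2) := by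
    positivity
  linarith [show (A + B) ^ 3 * (A * u ^ 4 + B * w ^ 4) - (A * u + B * w) ^ 4 = A * B * (u - w) ^ 2 *
    ((3 * A ^ 2 + 3 * A * B + B ^ 2) * u ^ 2 + (2 * A ^ 2 + 6 * A * B + 2 * B ^ 2) * u * w +
      (A ^ 2 + 3 * A * B + 3 * B ^ 2) * w ^ 2) by ring]

lemma good_ok {p q a b c d : ℕ} (h : good p q a b c d = true) (hp : 0 < p) (hq : 0 < q)
    {α β γ δ : ℝ} (ha : α ∈ Set.Icc (0 : ℝ) a) (hb : β ∈ Set.Icc (0 : ℝ) b)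
    (hc : γ ∈ Set.Icc (0 : ℝ) c) (hd : δ ∈ Set.Icc (0 : ℝ) d) : GG α β γ δ := by
  intro x y hx hy
  obtain ⟨a2, a3⟩ := ha
  obtain ⟨b2, b3⟩ := hb
  obtain ⟨c2, c3⟩ := hc
  obtain ⟨d2, d3⟩ := hd
  simp only [good, Bool.and_eq_true, Nat.ble_eq] at h
  have h1 : (a * (a * q + b * p) ^ 3 + c * (c * q + d * p) ^ 3 : ℝ) ≤ 3069 * 2 ^ 32 * q ^ 3 := by
    exact_mod_cast h.1
  have h2 : (b * (a * q + b * p) ^ 3 + d * (c * q + d * p) ^ 3 : ℝ) ≤ 3069 * 2 ^ 32 * p ^ 3 := by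
    exact_mod_cast h.2
  have p0 : (0 : ℝ) < p := by exact_mod_cast hp
  have q0 : (0 : ℝ) < q := by exact_mod_cast hq
  obtain ⟨u, rfl⟩ : ∃ u, x = q * u := ⟨x / q, by field_simp⟩
  obtain ⟨w, rfl⟩ : ∃ w, y = p * w := ⟨y / p, by field_simp⟩
  have u0 : 0 ≤ u := nonneg_of_mul_nonneg_right hx q0
  have w0 : 0 ≤ w := nonneg_of_mul_nonneg_right hy p0
  have j1 := jen (a * q) (b * p) u w (by positivity) (by positivity) u0 w0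
  have j2 := jen (c * q) (d * p) u w (by positivity) (by positivity) u0 w0
  have k1 := mul_le_mul_of_nonneg_left h1 (by positivity : 0 ≤ q * u ^ 4)
  have k2 := mul_le_mul_of_nonneg_left h2 (by positivity : 0 ≤ p * w ^ 4)
  calc _ ≤ (a * (q * u) + b * (p * w)) ^ 4 + (c * (q * u) + d * (p * w)) ^ 4 := by gcongr
    _ = (a * q * u + b * p * w) ^ 4 + (c * q * u + d * p * w) ^ 4 := by ring
    _ ≤ _ := by linarith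

lemma bb_ok {α β γ δ : ℝ} (H : HH α β γ δ) : ∀ (n i a0 a1 b0 b1 c0 c1 d0 d1 : ℕ),
    bb n i a0 a1 b0 b1 c0 c1 d0 d1 = true → α ∈ Set.Icc (a0 : ℝ) a1 → β ∈ Set.Icc (b0 : ℝ) b1 →
    γ ∈ Set.Icc (c0 : ℝ) c1 → δ ∈ Set.Icc (d0 : ℝ) d1 → GG α β γ δ := by
  intro n
  induction n with
  | zero => intro i a0 a1 b0 b1 c0 c1 d0 d1 h; exact absurd h Bool.false_ne_true
  | succ n ih =>
    intro i a0 a1 b0 b1 c0 c1 d0 d1 h ha hb hc hd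
    have z : ∀ {x : ℝ} {u v : ℕ}, x ∈ Set.Icc (u : ℝ) v → x ∈ Set.Icc (0 : ℝ) v := fun h =>
      ⟨(Nat.cast_nonneg _).trans h.1, h.2⟩
    have s : ∀ {x : ℝ} {u v : ℕ} (m : ℕ), x ∈ Set.Icc (u : ℝ) v →
        x ∈ Set.Icc (u : ℝ) m ∨ x ∈ Set.Icc (m : ℝ) v := fun m h =>
      (le_total _ (m : ℝ)).imp (fun g => ⟨h.1, g⟩) fun g => ⟨g, h.2⟩
    change st (bb n) i a0 a1 b0 b1 c0 c1 d0 d1 = true at h
    rw [st, Bool.or_eq_true] at h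
    rcases h with h | h
    · simp only [chk, Bool.or_eq_true] at h
      rcases h with (((((((((((((h | h) | h) | h) | h) | h) | h) | h) | h) | h) | h) | h) | h) | h)
      iterate 7 exact good_ok h (by norm_num) (by norm_num) (z ha) (z hb) (z hc) (z hd)
      all_goals exact absurd H (inf_ok h ha hb hc hd)
    · simp only [Bool.cond_eq_ite] at h
      split_ifs at h <;> rw [Bool.and_eq_true] at h
      · exact (s _ hb).elim (fun g => ih _ _ _ _ _ _ _ _ _ h.1 ha g hc hd)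
          fun g => ih _ _ _ _ _ _ _ _ _ h.2 ha g hc hd
      · exact (s _ hc).elim (fun g => ih _ _ _ _ _ _ _ _ _ h.1 ha hb g hd)
          fun g => ih _ _ _ _ _ _ _ _ _ h.2 ha hb g hd
      · exact (s _ ha).elim (fun g => ih _ _ _ _ _ _ _ _ _ h.1 g hb hc hd)
          fun g => ih _ _ _ _ _ _ _ _ _ h.2 g hb hc hd
      · exact (s _ hd).elim (fun g => ih _ _ _ _ _ _ _ _ _ h.1 ha hb hc g)
          fun g => ih _ _ _ _ _ _ _ _ _ h.2 ha hb hc g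

lemma run : bb 45 0 0 1024 0 2048 0 2048 0 1024 = true := by decide +kernel

theorem mainB {α β γ δ : ℝ} (ha : 0 ≤ α) (hb : 0 ≤ β) (hc : 0 ≤ γ) (hd : 0 ≤ δ)
    (H : HH α β γ δ) : GG α β γ δ := by
  have h1 := (H 0 1 le_rfl zero_le_one).2
  have h2 := (H 1 0 zero_le_one le_rfl).2
  have h3 := (H 1 1 zero_le_one zero_le_one).1
  norm_num [abs_of_nonneg ha, abs_of_nonneg hd] at h1 h2 h3
  have h4 : β + γ ≤ 2048 := by nlinarith [sq_nonneg (α - δ)]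
  refine bb_ok H _ _ _ _ _ _ _ _ _ _ run ⟨?_, ?_⟩ ⟨?_, ?_⟩ ⟨?_, ?_⟩ ⟨?_, ?_⟩ <;> push_cast <;> linarith

end Pool.Agent.H.MP_3da572_an
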