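import Mathlib
import Pool.Agent.H.MP_3da572_an.A
import Pool.Agent.H.MP_3da572_an.B

set_option autoImplicit false

namespace Pool.Agent.H.MP_3da572_an

open scoped ENNReal ComplexConjugate

instance fact4 : Fact (1 ≤ (4 : ℝ≥0∞)) := ⟨by norm_num⟩

lemma nsq (a b : ℂ) (t : ℝ) :
    ‖a + (t : ℂ) * b‖ ^ 4 = (‖a‖ ^ 2 + 2 * t * (conj a * b).re + t ^ 2 * ‖b‖ ^ 2) ^ 2 := by
  rw [show 4 = 2 * 2 from rfl, pow_mul]
  congr 1
  simp only [Complex.sq_norm, Complex.normSq_apply, Complex.add_re, Complex.add_im, Complex.mul_re,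
    Complex.mul_im, Complex.ofReal_re, Complex.ofReal_im, Complex.conj_re, Complex.conj_im]
  ring

section
variable {X : Type*} [NormedAddCommGroup X] [NormedSpace ℂ X]

lemma re_eq (x y : X) (l : X →L[ℂ] ℂ) (hx : ‖x‖ = 1) (hl : ‖l‖ = 1) (h1 : l x = 1) (c : ℝ)
    (x1 x2 y1 y2 : ℂ)
    (h : ∀ t : ℝ, ‖x + (t : ℂ) • y‖ ^ 4 = c + ‖x1 + t * y1‖ ^ 4 + ‖x2 + t * y2‖ ^ 4) :
    (l y).re = ‖x1‖ ^ 2 * (conj x1 * y1).re + ‖x2‖ ^ 2 * (conj x2 * y2).re := by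
  simp only [nsq] at h
  generalize ‖x1‖ ^ 2 = A0 at *
  generalize ‖x2‖ ^ 2 = A1 at *
  generalize (conj x1 * y1).re = B0 at *
  generalize (conj x2 * y2).re = B1 at *
  generalize ‖y1‖ ^ 2 = C0 at *
  generalize ‖y2‖ ^ 2 = C1 at *
  have h0 := h 0
  simp only [Complex.ofReal_zero, zero_smul, add_zero, hx] at h0
  have hmin : IsLocalMin (fun t : ℝ => (A0 + 2 * t * B0 + t ^ 2 * C0) ^ 2 +
      (A1 + 2 * t * B1 + t ^ 2 * C1) ^ 2 - (1 + t * (l y).re) ^ 4) 0 := by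
    refine Filter.Eventually.of_forall fun t => ?_
    have a1 := l.le_opNorm (x + (t : ℂ) • y)
    have a2 : (l (x + (t : ℂ) • y)).re = 1 + t * (l y).re := by
      rw [map_add, map_smul, h1]; simp
    rw [hl, one_mul] at a1
    have a3 := pow_le_pow_left₀ (abs_nonneg _) ((Complex.abs_re_le_norm _).trans a1) 4
    rw [(by decide : Even 4).pow_abs, a2, h] at a3
    simp only
    linarith
  have i := hasDerivAt_id (0 : ℝ)
  have d0 := ((((i.const_mul 2).mul_const B0).const_add A0).add ((i.pow 2).mul_const C0)).pow 2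
  have d1 := ((((i.const_mul 2).mul_const B1).const_add A1).add ((i.pow 2).mul_const C1)).pow 2
  have d2 := ((i.mul_const (l y).re).const_add 1).pow 4
  have := hmin.hasDerivAt_eq_zero (((d0.add d1).sub d2).congr_deriv
    (g' := 4 * A0 * B0 + 4 * A1 * B1 - 4 * (l y).re) (by simp; ring))
  linarith

lemma dual (x y : X) (l : X →L[ℂ] ℂ) (hx : ‖x‖ = 1) (hl : ‖l‖ = 1) (h1 : l x = 1) (c : ℝ)
    (x1 x2 y1 y2 : ℂ)
    (h : ∀ w : ℂ, ‖x + w • y‖ ^ 4 = c + ‖x1 + w * y1‖ ^ 4 + ‖x2 + w * y2‖ ^ 4) :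
    l y = x1 * conj x1 ^ 2 * y1 + x2 * conj x2 ^ 2 * y2 := by
  have a := re_eq x y l hx hl h1 c x1 x2 y1 y2 fun t => h t
  have b := re_eq x (Complex.I • y) l hx hl h1 c x1 x2 (Complex.I * y1) (Complex.I * y2) fun t => by
    rw [smul_smul, h, mul_assoc, mul_assoc]
  rw [map_smul] at b
  simp only [Complex.sq_norm, Complex.normSq_apply] at a b
  apply Complex.ext <;>
    simp only [smul_eq_mul, Complex.mul_re, Complex.mul_im, Complex.I_re, Complex.I_im,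
      Complex.conj_re, Complex.conj_im, Complex.add_re, Complex.add_im, sq] at a b ⊢ <;>
    linarith

end

/-- the plane -/
abbrev E : Type := PiLp (4 : ℝ≥0∞) fun _ : Fin 2 => ℂ

lemma norm4 (x : E) : ‖x‖ ^ 4 = ‖x 0‖ ^ 4 + ‖x 1‖ ^ 4 := by
  rw [PiLp.norm_eq_of_nat 4 (by norm_num), Fin.sum_univ_two, one_div]
  exact Real.rpow_inv_natCast_pow (by positivity) (by norm_num)

lemma phase (z : ℂ) : ∃ u : ℂ, ‖u‖ = 1 ∧ z = ‖z‖ * u :=
  ⟨Complex.exp (z.arg * Complex.I), by simp, (Complex.norm_mul_exp_arg_mul_I z).symm⟩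

lemma cons {a b c d : ℂ} {v : ℝ} (h : ∀ x y : ℂ, ‖x * conj x ^ 2 * (a * x + b * y) +
    y * conj y ^ 2 * (c * x + d * y)‖ ≤ v * (‖x‖ ^ 4 + ‖y‖ ^ 4)) (p q : ℝ) (hp : 0 ≤ p)
    (hq : 0 ≤ q) : (‖a‖ * q ^ 4 - ‖d‖ * p ^ 4) ^ 2 + (‖b‖ * (p * q ^ 3) + ‖c‖ * (p ^ 3 * q)) ^ 2 ≤
      (v * (p ^ 4 + q ^ 4)) ^ 2 ∧ |‖a‖ * q ^ 4 - ‖d‖ * p ^ 4| +
      |‖b‖ * (p * q ^ 3) - ‖c‖ * (p ^ 3 * q)| ≤ v * (p ^ 4 + q ^ 4) := by
  have k : ∀ w : ℂ, ‖w‖ = 1 → ‖a * q ^ 4 + d * p ^ 4 + b * w * (p * q ^ 3 : ℝ) +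
      c * conj w * (p ^ 3 * q : ℝ)‖ ≤ v * (p ^ 4 + q ^ 4) := by
    intro w hw
    have h1 := h q (p * w)
    have h2 : w * conj w = 1 := by rw [Complex.mul_conj', hw]; simp
    simp only [norm_mul, hw, Complex.norm_real, Real.norm_of_nonneg hp, Real.norm_of_nonneg hq,
      mul_one, map_mul, Complex.conj_ofReal] at h1
    rw [add_comm (p ^ 4)]
    convert h1 using 2
    push_cast
    linear_combination (-(c * p ^ 3 * q * conj w) - d * p ^ 4 * (1 + w * conj w)) * h2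
  have u0 : |‖a‖ * q ^ 4 - ‖d‖ * p ^ 4| ≤ ‖a * q ^ 4 + d * p ^ 4‖ := by
    have := abs_norm_sub_norm_le (a * q ^ 4) (-(d * p ^ 4))
    simpa [abs_of_nonneg hp, abs_of_nonneg hq] using this
  generalize a * q ^ 4 + d * p ^ 4 = u at *
  have r0 : 0 ≤ p * q ^ 3 := by positivity
  have s0 : 0 ≤ p ^ 3 * q := by positivity
  generalize p * q ^ 3 = r at *
  generalize p ^ 3 * q = s at *
  generalize v * (p ^ 4 + q ^ 4) = W at *
  obtain ⟨β, b1, b2⟩ := phase b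
  obtain ⟨γ, c1, c2⟩ := phase c
  obtain ⟨μ, u1, u2⟩ := phase u
  have cj : ∀ z : ℂ, ‖z‖ = 1 → z * conj z = 1 := fun z hz => by rw [Complex.mul_conj', hz]; simp
  constructor
  · obtain ⟨w, hw⟩ := IsAlgClosed.exists_pow_nat_eq (γ * conj β) two_pos
    have w1 : ‖w‖ = 1 := by
      have := congrArg norm hw
      rw [norm_pow, norm_mul, Complex.norm_conj, b1, c1, mul_one] at this
      exact (pow_eq_one_iff_of_nonneg (norm_nonneg _) two_ne_zero).1 this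
    have e : b * w * r + c * conj w * s = β * w * (‖b‖ * r + ‖c‖ * s : ℝ) := by
      have : γ * conj w = β * w := by
        linear_combination (-(β * conj w)) * hw - γ * conj w * cj β b1 + β * w * cj w w1
      push_cast
      linear_combination w * r * b2 + conj w * s * c2 + ‖c‖ * s * this
    have k1 := k w w1
    have k2 := k (-w) (by simpa using w1)
    rw [add_assoc, e] at k1
    rw [map_neg, show u + b * -w * r + c * -conj w * s = u - (b * w * r + c * conj w * s) by ring,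
      e] at k2
    have pl := parallelogram_law_with_norm ℂ u (β * w * (‖b‖ * r + ‖c‖ * s : ℝ))
    rw [norm_mul, norm_mul, b1, w1, Complex.norm_real, Real.norm_eq_abs, one_mul, one_mul] at pl
    have t1 := pow_le_pow_left₀ (norm_nonneg _) k1 2
    have t2 := pow_le_pow_left₀ (norm_nonneg _) k2 2
    have t3 := pow_le_pow_left₀ (abs_nonneg _) u0 2
    rw [sq_abs] at t3
    nlinarith [sq_abs (‖b‖ * r + ‖c‖ * s)]
  · have g : ∀ (z z' m : ℂ) (ρ : ℝ), 0 ≤ ρ → z = ρ * μ → ‖u + z + z'‖ ≤ W → ‖u‖ + ρ - ‖z'‖ ≤ W := by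
      rintro z z' m ρ hρ rfl h1
      have e : u + ρ * μ = (‖u‖ + ρ : ℝ) * μ := by push_cast; linear_combination u2
      have := norm_sub_norm_le (u + ρ * μ) (-z')
      rw [sub_neg_eq_add, norm_neg, e, norm_mul, u1, mul_one, Complex.norm_real,
        Real.norm_of_nonneg (by positivity), ← e] at this
      linarith
    have k1 := g _ _ 0 (‖b‖ * r) (by positivity) (by
      push_cast
      linear_combination conj β * μ * r * b2 + ‖b‖ * μ * r * cj β b1)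
      (k (conj β * μ) (by simp [b1, u1]))
    have k2 := k (γ * conj μ) (by simp [c1, u1])
    rw [add_right_comm] at k2
    have k3 := g _ _ 0 (‖c‖ * s) (by positivity) (by
      simp only [map_mul, Complex.conj_conj]
      push_cast
      linear_combination conj γ * μ * s * c2 + ‖c‖ * μ * s * cj γ c1) k2
    simp only [norm_mul, Complex.norm_conj, b1, c1, u1, mul_one, Complex.norm_real,
      Real.norm_of_nonneg r0, Real.norm_of_nonneg s0] at k1 k3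
    rcases abs_cases (‖b‖ * r - ‖c‖ * s) with h | h <;> linarith [h.1]

theorem lowerE (A : E →L[ℂ] E) (h : ∀ (x : E) (l : E →L[ℂ] ℂ), ‖x‖ = 1 → ‖l‖ = 1 → l x = 1 →
    ‖l (A x)‖ ≤ 5374 / 10000) : ‖A‖ < 1 := by
  set e0 : E := WithLp.toLp 4 ![1, 0]
  set e1 : E := WithLp.toLp 4 ![0, 1]
  have dec : ∀ (x : E) i, A x i = A e0 i * x 0 + A e1 i * x 1 := by
    intro x i
    have : x = x 0 • e0 + x 1 • e1 := by
      ext j; fin_cases j <;> simp [e0, e1]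
    conv_lhs => rw [this]
    simp [mul_comm]
  have h1 : ∀ x y : ℂ, ‖x * conj x ^ 2 * (A e0 0 * x + A e1 0 * y) +
      y * conj y ^ 2 * (A e0 1 * x + A e1 1 * y)‖ ≤ 5374 / 10000 * (‖x‖ ^ 4 + ‖y‖ ^ 4) := by
    intro x y
    set z : E := WithLp.toLp 4 ![x, y]
    have n4 : ‖z‖ ^ 4 = ‖x‖ ^ 4 + ‖y‖ ^ 4 := norm4 z
    rcases (norm_nonneg z).eq_or_lt with z0 | z0
    · have := norm_eq_zero.1 z0.symm
      have a : x = 0 := congrArg (fun v : E => v 0) this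
      have b : y = 0 := congrArg (fun v : E => v 1) this
      simp [a, b]
    have n1 : ‖(‖z‖⁻¹ : ℂ) • z‖ = 1 := by rw [norm_smul]; simp [z0.ne']
    obtain ⟨l, l1, l2⟩ := exists_dual_vector ℂ ((‖z‖⁻¹ : ℂ) • z) (by rw [n1]; exact one_ne_zero)
    rw [n1] at l2
    have k := h _ l n1 l1 (by simpa using l2)
    rw [dual _ (A ((‖z‖⁻¹ : ℂ) • z)) l n1 l1 (by simpa using l2) 0 (((‖z‖⁻¹ : ℂ) • z) 0)
      (((‖z‖⁻¹ : ℂ) • z) 1) (A ((‖z‖⁻¹ : ℂ) • z) 0) (A ((‖z‖⁻¹ : ℂ) • z) 1) fun w => by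
      rw [norm4, zero_add]; rfl, dec ((‖z‖⁻¹ : ℂ) • z), dec ((‖z‖⁻¹ : ℂ) • z)] at k
    have zc : (‖z‖ : ℂ) ≠ 0 := by exact_mod_cast z0.ne'
    rw [← n4]
    refine le_trans (le_of_eq ?_) (mul_le_mul_of_nonneg_right k (by positivity))
    rw [← Real.norm_of_nonneg (by positivity : 0 ≤ ‖z‖ ^ 4), ← Complex.norm_real, ← norm_mul]
    congr 1
    have a : z 0 = x := rfl
    have b : z 1 = y := rfl
    simp only [PiLp.smul_apply, smul_eq_mul, a, b, map_mul, map_inv₀, Complex.conj_ofReal]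
    push_cast
    field_simp
  have h2 := mainB (α := 1024 / (5374 / 10000) * ‖A e0 0‖) (β := 1024 / (5374 / 10000) * ‖A e1 0‖)
    (γ := 1024 / (5374 / 10000) * ‖A e0 1‖) (δ := 1024 / (5374 / 10000) * ‖A e1 1‖)
    (by positivity) (by positivity) (by positivity) (by positivity) fun p q hp hq => by
      obtain ⟨k1, k2⟩ := cons h1 p q hp hq
      simp only [mul_assoc, ← mul_sub, ← mul_add, abs_mul]
      rw [abs_of_pos (by norm_num : (0 : ℝ) < 1024 / (5374 / 10000))]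
      constructor <;> nlinarith
  refine lt_of_le_of_lt (A.opNorm_le_bound (M := 99999 / 100000) (by norm_num) fun x => ?_)
    (by norm_num)
  refine le_of_pow_le_pow_left₀ four_ne_zero (by positivity) ?_
  have k := h2 ‖x 0‖ ‖x 1‖ (norm_nonneg _) (norm_nonneg _)
  have t : ∀ i, ‖A x i‖ ^ 4 ≤ (‖A e0 i‖ * ‖x 0‖ + ‖A e1 i‖ * ‖x 1‖) ^ 4 := fun i => by
    gcongr
    rw [dec, ← norm_mul, ← norm_mul]
    exact norm_add_le _ _
  rw [mul_pow, norm4, norm4 x]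
  simp only [mul_assoc, ← mul_add, mul_pow] at k
  have := t 0
  have := t 1
  have : 0 ≤ ‖x 0‖ ^ 4 + ‖x 1‖ ^ 4 := by positivity
  norm_num at k ⊢
  linarith

/-- the sequence space -/
abbrev X : Type := lp (fun _ : ℕ => ℂ) 4

lemma hs (x : X) : HasSum (fun i => ‖x i‖ ^ 4) (‖x‖ ^ 4) := by
  have := lp.hasSum_norm (p := 4) (by norm_num) x
  norm_num at this
  exact_mod_cast this

/-- three coordinates -/
noncomputable def vec (a b c : ℂ) : X := lp.single 4 0 a + lp.single 4 1 b + lp.single 4 2 c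

lemma vec_ap (a b c : ℂ) : vec a b c 0 = a ∧ vec a b c 1 = b ∧ vec a b c 2 = c ∧
    ∀ i, i ∉ Finset.range 3 → vec a b c i = 0 := by
  refine ⟨by simp [vec], by simp [vec], by simp [vec], fun i hi => ?_⟩
  have : i ≠ 0 ∧ i ≠ 1 ∧ i ≠ 2 := by simp at hi; omega
  simp [vec, this]

lemma nrm_add (x : X) (a b c : ℂ) : ‖x + vec a b c‖ ^ 4 = ‖x‖ ^ 4 + ((‖x 0 + a‖ ^ 4 - ‖x 0‖ ^ 4) +
    (‖x 1 + b‖ ^ 4 - ‖x 1‖ ^ 4) + (‖x 2 + c‖ ^ 4 - ‖x 2‖ ^ 4)) := by
  obtain ⟨h0, h1, h2, h3⟩ := vec_ap a b c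
  have k := hasSum_sum_of_ne_finset_zero (s := Finset.range 3) (L := .unconditional ℕ)
    (f := fun i => ‖x i + vec a b c i‖ ^ 4 - ‖x i‖ ^ 4) fun i hi => by simp [h3 i hi]
  have := ((hs (x + vec a b c)).sub (hs x)).unique k
  simp only [Finset.sum_range_succ, Finset.sum_range_zero, h0, h1, h2] at this
  linarith

/-- the functional -/
noncomputable def ff : X →L[ℂ] ℂ :=
  (6 : ℂ) • lp.evalCLM ℂ _ 4 0 - lp.evalCLM ℂ _ 4 1 + lp.evalCLM ℂ _ 4 2

theorem upperX : ∃ T : X →L[ℂ] X, ‖T‖ = 1 ∧ ∀ (x : X) (l : X →L[ℂ] ℂ), ‖x‖ = 1 → ‖l‖ = 1 →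
    l x = 1 → ‖l (T x)‖ ≤ 53735 / 100000 := by
  set T : X →L[ℂ] X := ff.smulRight (vec 0 1 1)
  have tx : ∀ x, T x = (6 * x 0 - x 1 + x 2) • vec 0 1 1 := fun x => rfl
  have n0 : ∀ a b c, ‖vec a b c‖ ^ 4 = ‖a‖ ^ 4 + ‖b‖ ^ 4 + ‖c‖ ^ 4 := fun a b c => by
    simpa using nrm_add 0 a b c
  have h1 : 80955 / 10000 ≤ ‖T‖ := by
    obtain ⟨h0, h1, h2, -⟩ := vec_ap 9 (-5) 5
    have := pow_le_pow_left₀ (norm_nonneg _) (T.le_opNorm (vec 9 (-5) 5)) 4
    rw [mul_pow, tx, norm_smul, mul_pow, n0, n0, h0, h1, h2] at this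
    norm_num at this
    refine le_of_pow_le_pow_left₀ four_ne_zero (norm_nonneg _) ?_
    norm_num
    linarith
  have p : 0 < ‖T‖ := by linarith
  refine ⟨((‖T‖⁻¹ : ℝ) : ℂ) • T, by
    rw [norm_smul, Complex.norm_real, norm_inv, norm_norm, inv_mul_cancel₀ p.ne'],
    fun x l hx hl h => ?_⟩
  have d := dual x (vec 0 1 1) l hx hl h (1 - ‖x 1‖ ^ 4 - ‖x 2‖ ^ 4) (x 1) (x 2) 1 1 fun w => by
    have : w • vec 0 1 1 = vec 0 w w := by simp [vec, ← lp.single_smul]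
    rw [this, nrm_add, hx]
    simp only [add_zero, mul_one]
    ring
  have s3 := sum_le_hasSum (Finset.range 3) (fun i _ => by positivity) (hs x)
  simp only [Finset.sum_range_succ, Finset.sum_range_zero, hx] at s3
  have k := polyA ‖x 0‖ ‖x 1‖ ‖x 2‖ ‖x 1 - x 2‖ ‖l (vec 0 1 1)‖ (norm_nonneg _) (norm_nonneg _)
    (norm_nonneg _) (norm_nonneg _) (norm_sub_le _ _) (by
      rw [d, show 4 = 2 * 2 from rfl]
      simp only [pow_mul, Complex.sq_norm, Complex.normSq_apply, Complex.add_re, Complex.add_im,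
        Complex.mul_re, Complex.mul_im, Complex.conj_re, Complex.conj_im, Complex.sub_re,
        Complex.sub_im, mul_one, sq (conj _)]
      ring)
  have e : l ((((‖T‖⁻¹ : ℝ) : ℂ) • T) x) =
      (‖T‖⁻¹ : ℝ) * ((6 * x 0 - (x 1 - x 2)) * l (vec 0 1 1)) := by
    rw [smul_apply, tx, map_smul, map_smul, smul_eq_mul, smul_eq_mul]
    ring
  rw [e, norm_mul, norm_mul, Complex.norm_real, norm_inv, norm_norm, inv_mul_le_iff₀ p]
  have t := norm_sub_le (6 * x 0) (x 1 - x 2)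
  rw [norm_mul, Complex.norm_ofNat] at t
  nlinarith [mul_le_mul_of_nonneg_right t (norm_nonneg (l (vec 0 1 1)))]

end Pool.Agent.H.MP_3da572_an
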